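import Pool.Agent.H69.STAT.LipE
import Pool.Agent.H33.TRC.LabF

/-!
# The gradients of the labels of universal degree: the form for a list of chains

`lip_jat`: the labels of a list of chains (`Pool.TRC.lab_jat`) have natural gradients.
-/

set_option autoImplicit false

namespace Pool.STAT

open Finset MvPolynomial
open Pool.Agent.H49.Ent Pool.Agent.H32.Dense Pool.STK Pool.KS3 Pool.KA Pool.KSAT Pool.PB Pool.GEN
open Pool.K2S Pool.TRC

namespace CLO

/-- **The gradients of the labels** near to all points of the wide boxes of a list of chains. -/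
theorem lip_jat (n D : ℕ) : ∃ c : ℕ, ∀ K N : ℕ, ∃ C : ℕ, ∀ (d J : ℕ) (F : Fam d J)
    (ch : ℕ → Fin d) (Cd : CDat F) (w₀ z k j r : ℕ) (al om : ℕ → ℕ) (e ee : ℕ) (g gf : ℕ → ℕ → ℕ)
    (u₀ h u a₀ wz s σ t : ℕ) (A B : F.Ω → Prop)
    (G : ℕ → PtT F → ℕ → MvPolynomial (Option (Fin d)) ℝ)
    (H : ℕ → LnT F → ℕ → MvPolynomial (Option (Fin d)) ℝ),
    Jat F ch n K (N + 1) al om ee g u₀ A G H → Inj ch n →
    Pool.TRC.Path n (N + 1) J al om g a₀ wz h u → u₀ + C ≤ u →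
    j ≤ N → al j ≤ w₀ + k * z → w₀ + k * z ≤ J → w₀ + k * z + 2 ≤ al j + s → r ≤ n →
    ChOK F ch r (fun _ => K) (al j) (om j) e (g j) A (G j) (H j) → (∀ ω, B ω → A ω) →
    (∀ v i, 1 ≤ i → i ≤ r → (Cd.G k v i).totalDegree ≤ D) →
    (∀ v i, 1 ≤ i → i ≤ r → (Cd.G k v i).vars ⊆ range i) →
    (∀ ω, B ω → ∀ i, 1 ≤ i → i ≤ n → ∀ b : ℕ → ℝ,
      InB F (shl a₀ al) (jg g) u (j + 1) ω
        (fun k' => jG F ch n (N + 1) a₀ al G k' (ptr F J ω)) i b →
      |b 0 - (F.T1 (w₀ + k * z) ω : ℝ) / 2 ^ (w₀ + k * z)| ≤ 2 ^ s / 2 ^ (w₀ + k * z) →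
      |b i - eval b (Cd.Ph w₀ z k ω i)| ≤ 2 ^ σ / 2 ^ g j (i - 1)) →
    (∀ i, 1 ≤ i → i ≤ r → gf k i ≤ g j (i - 1) ∧ g j (i - 1) ≤ gf k i + t) →
    NL.LipC F Cd w₀ z k r (e + c * (σ + t + 1) + C) gf B := by
  classical
  obtain ⟨c, hlip⟩ := lip_near n D
  refine ⟨c, fun K N => ?_⟩
  obtain ⟨C, hlip⟩ := hlip K
  obtain ⟨s₀, hs₀, hlvl⟩ := lvl_of n K
  refine ⟨C + s₀, ?_⟩
  intro d J F ch Cd w₀ z k j r al om e ee g gf u₀ h u a₀ wz s σ t A B G H hJ hc P hu hj hjk hkJ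
    htm hr hok hB hdeg htri her hgf
  have hLvl := hlvl d J (N + 1) F ch al om ee g u₀ h u a₀ wz A G H hJ hc P.alJ P.a0J P.w0 P.oa P.om1
    P.ini P.mesh P.law P.law0 (by omega)
  have hjG : jG F ch n (N + 1) a₀ al G (j + 1) = Gs ch n (al j) (G j) := jG_succ (by omega)
  have haJ : al j ≤ J := P.alJ j (by omega)
  have hmain := hlip d J F ch Cd w₀ z k (al j) (om j) e σ t r (g j) gf A B (G j) (H j) hjk hkJ hr hc
    hok hB hdeg htri (fun ω hω i h1 hi b hb => ?_) hgf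
  · intro ω hω i h1 hi b hb l hl hli
    refine (hmain ω hω i h1 hi b hb l hl hli).trans ?_
    exact pow_le_pow_right₀ (by norm_num) (by omega)
  -- the nearness
  obtain ⟨Ψ, hΨ⟩ : ∃ Ψ : ℕ → ℕ → PN, Ψ = fun k' => jG F ch n (N + 1) a₀ al G k' (ptr F J ω) :=
    ⟨_, rfl⟩
  have hΨj : Ψ (j + 1) = Gs ch n (al j) (G j) (ptr F J ω) := by
    rw [hΨ]
    show jG F ch n (N + 1) a₀ al G (j + 1) (ptr F J ω) = _
    rw [hjG]
  have hΨt : ∀ k', TriN (Ψ k') := fun k' => by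
    rw [hΨ]
    exact hLvl.triG k' _
  rw [← hΨj] at hb ⊢
  obtain ⟨b', hb'⟩ : ∃ b' : ℕ → ℝ, b' = Function.update b i (eval b (Ψ (j + 1) i)) := ⟨_, rfl⟩
  have hbl : ∀ l < i, b' l = b l := fun l hl => by
    rw [hb', Function.update_of_ne (by omega)]
  have hbi : b' i = eval b (Ψ (j + 1) i) := by rw [hb', Function.update_self]
  have hev : ∀ {Q : PN} {l : ℕ}, Q.vars ⊆ range l → l ≤ i → eval b' Q = eval b Q :=
    fun {Q l} hQ hl => Pool.SYS35.eval_congr hQ fun x hx => hbl x (by omega)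
  rw [gg_tus] at hb
  have hb0 : |b 0 - (F.T1 (al j) ω : ℝ) / 2 ^ al j| ≤ 1 / 2 ^ al j := by
    have h0 := hb 0 h1
    have h2 : Ψ (j + 1) 0 = MvPolynomial.C (tp (al j) (ptr F J ω)) := by
      rw [hΨ]
      exact hLvl.G_zero (j + 1) _
    rw [h2, eval_C, tp_eq] at h0
    exact h0
  have hpos : ∀ l, 1 ≤ l → l ≤ i → |b' l - eval b' (Ψ (j + 1) l)| ≤ 1 / 2 ^ g j (l - 1) := by
    intro l hl1 hl
    rw [hev (hΨt _ l) hl]
    rcases Nat.lt_or_ge l i with h2 | h2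
    · rw [hbl l h2]
      have := hb l h2
      rwa [tus_pos _ _ hl1] at this
    · have : l = i := by omega
      subst this
      rw [hbi, sub_self, abs_zero]
      positivity
  have hin : InB F (shl a₀ al) (jg g) u (j + 1) ω Ψ i b' := by
    refine ⟨?_, fun k' hk' l hl1 hl => ?_⟩
    · rw [hbl 0 h1]
      exact hb0
    · have e1 := hpos l hl1 hl
      rw [hev (hΨt _ l) hl] at e1 ⊢
      rcases Nat.lt_or_ge k' (j + 1) with h2 | h2
      · have e2 := hLvl.uni ω (hB ω hω) (j + 1) (by omega) k' h2 l hl1 (by omega) b (by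
          have e3 : Ψ (j + 1) = jG F ch n (N + 1) a₀ al G (j + 1) (ptr F J ω) := by rw [hΨ]
          rw [← e3]
          exact fun x hx => hb x (by omega))
        have e4 := hLvl.mono (j + 1) (by omega) k' h2.le l hl1 (by omega)
        have e5 : (1 : ℝ) / 2 ^ g j (l - 1) ≤ 1 / 2 ^ jg g k' l :=
          one_div_le_one_div_of_le (by positivity) (pow_le_pow_right₀ (by norm_num) e4)
        have e6 : (1 : ℝ) / 2 ^ jg g k' l ≤ 2 ^ u / 2 ^ jg g k' l :=
          div_le_div_of_nonneg_right (one_le_pow₀ (by norm_num)) (by positivity)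
        have e7 : (2 : ℝ) ^ (u + 1) / 2 ^ jg g k' l = 2 ^ u / 2 ^ jg g k' l +
            2 ^ u / 2 ^ jg g k' l := by
          rw [pow_succ]
          ring
        rw [e7]
        have e8 : Ψ (j + 1) l = jG F ch n (N + 1) a₀ al G (j + 1) (ptr F J ω) l := by rw [hΨ]
        have e9 : Ψ k' l = jG F ch n (N + 1) a₀ al G k' (ptr F J ω) l := by rw [hΨ]
        rw [e8] at e1
        rw [e9]
        rw [abs_le] at e1 e2 ⊢
        constructor <;> linarith [e1.1, e1.2, e2.1, e2.2]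
      · obtain rfl : k' = j + 1 := by omega
        refine e1.trans ?_
        show 1 / 2 ^ g j (l - 1) ≤ 2 ^ (u + 1) / 2 ^ g j (l - 1)
        exact div_le_div_of_nonneg_right (one_le_pow₀ (by norm_num)) (by positivity)
  have hti : |b' 0 - (F.T1 (w₀ + k * z) ω : ℝ) / 2 ^ (w₀ + k * z)| ≤
      2 ^ s / 2 ^ (w₀ + k * z) := by
    rw [hbl 0 h1]
    have e1 := t_cell F haJ ω
    have e2 := t_cell F hkJ ω
    have e3 : (1 : ℝ) / 2 ^ (w₀ + k * z) ≤ 1 / 2 ^ al j :=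
      one_div_le_one_div_of_le (by positivity) (pow_le_pow_right₀ (by norm_num) hjk)
    have e4 : |b 0 - (F.T1 (w₀ + k * z) ω : ℝ) / 2 ^ (w₀ + k * z)| ≤ 4 / 2 ^ al j := by
      have e5 : (4 : ℝ) / 2 ^ al j = 1 / 2 ^ al j + 1 / 2 ^ al j + 1 / 2 ^ al j +
        1 / 2 ^ al j := by ring
      have e6 : (0 : ℝ) < 1 / 2 ^ al j := by positivity
      rw [abs_le] at hb0 e1 e2 ⊢
      rw [e5]
      constructor <;> linarith [hb0.1, hb0.2, e1.1, e1.2, e2.1, e2.2]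
    refine e4.trans ?_
    rw [div_le_div_iff₀ (by positivity) (by positivity)]
    have e5 : (4 : ℝ) = 2 ^ 2 := by norm_num
    rw [e5, ← pow_add, ← pow_add]
    exact pow_le_pow_right₀ (by norm_num) (by omega)
  have hfin := her ω hω i h1 (by omega) b' (by
    rw [← hΨ]
    exact hin) hti
  rw [hbi] at hfin
  have hPh : (Cd.Ph w₀ z k ω i).vars ⊆ range i := by
    unfold CDat.Ph
    rw [if_neg (by omega)]
    exact htri _ i h1 hi
  rw [hev hPh le_rfl] at hfin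
  exact hfin

end CLO

end Pool.STAT
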