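import Pool.Agent.H33.TRC.TrcJ
import Pool.Agent.H63.STAT.CloG
import Pool.Agent.H63.STAT.Pack
import Pool.Agent.H74.STAT.NTop

/-!
# The gradients of labels of universal degree

A system of degree at most `D` which is near to a chain of two-sided labels of any degree, on the
natural boxes of the chain, has natural gradients on its dilated natural boxes. The loss in the
exponent is `c (σ + t + 1) + C`: only the constant `C` depends on the degree of the chain.
-/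

set_option autoImplicit false

namespace Pool.STAT

open Finset MvPolynomial
open Pool.Agent.H49.Ent Pool.Agent.H32.Dense Pool.STK Pool.KS3 Pool.KA Pool.KSAT Pool.PB Pool.GEN
open Pool.K2S

namespace CLO

/-- The natural exponents change by at most `t`, if the precisions change by at most `t`. -/
theorem nlp_up {g γ : ℕ → ℕ} {r t l q : ℕ}
    (hγ : ∀ i, 1 ≤ i → i ≤ r → γ i ≤ g (i - 1) ∧ g (i - 1) ≤ γ i + t) (hl : l < q)
    (hq : q + 1 ≤ r) : nlp g l q ≤ nlp γ (l + 1) (q + 1) + t := by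
  obtain ⟨p, hp, hp2⟩ := Finset.exists_mem_eq_sup (Finset.Icc l q) ⟨l, Finset.mem_Icc.2
    ⟨le_rfl, hl.le⟩⟩ g
  have h1 := Finset.mem_Icc.1 hp
  have h2 : γ (p + 1) ≤ (Finset.Icc (l + 1) (q + 1)).sup γ :=
    Finset.le_sup (f := γ) (Finset.mem_Icc.2 ⟨by omega, by omega⟩)
  have h3 := hγ (p + 1) (by omega) (by omega)
  have h4 := hγ (q + 1) (by omega) hq
  rw [Nat.add_sub_cancel] at h3 h4
  unfold nlp
  rw [hp2]
  omega

theorem deg_pdO {X : Type*} {P : MvPolynomial X ℝ} {K : ℕ} (hP : P.totalDegree ≤ K) (l : X) :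
    (pderiv l P).totalDegree ≤ K := by
  classical
  refine Finset.sup_le fun s hs => ?_
  rw [mem_support_iff, coeff_pderiv] at hs
  have h1 : s + Finsupp.single l 1 ∈ P.support := by
    rw [mem_support_iff]
    exact left_ne_zero_of_mul hs
  have h2 := (le_totalDegree h1).trans hP
  rw [Finsupp.sum_add_index' (fun _ => rfl) (fun _ _ _ => rfl)] at h2
  omega

/-- **The gradients of a chain** on the natural boxes around the cell of the time. -/
theorem raw_grad (n K : ℕ) : ∃ s₀ : ℕ, ∀ (d J : ℕ) (F : Fam d J) (c : ℕ → Fin d) (r a w e : ℕ)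
    (g : ℕ → ℕ) (G : PtT F → ℕ → MvPolynomial (Option (Fin d)) ℝ)
    (H : LnT F → ℕ → MvPolynomial (Option (Fin d)) ℝ) (A : F.Ω → Prop), a ≤ J → Inj c n → r ≤ n →
    ChOK F c r (fun _ => K) a w e g A G H → ∀ ω, A ω → ∀ l q, l < q → q < r → ∀ b : ℕ → ℝ,
    Bx (gg a g) (Gs c n a G (ptr F J ω)) (q + 1) b →
    |eval b (pderiv (l + 1) (Gs c n a G (ptr F J ω) (q + 1)))| ≤
      2 ^ s₀ * 2 ^ (e + nlp g l q) := by
  classical
  obtain ⟨s₀, h⟩ := Pool.TRC.cell_dil n K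
  refine ⟨s₀, ?_⟩
  intro d J F c r a w e g G H A ha hc hr hok ω hω l q hlq hq b hb
  have h1 := h d J F c a g G ha hc (fun y i _ => hok.degG y i) hok.depG ω q (by omega)
    (pderiv (some (c l)) (G (ptr F J ω) q)) (2 ^ (e + nlp g l q))
    (deg_pdO (hok.degG _ _) _) (by positivity)
    (fun b' hb' => hok.lip ω hω q hq b' hb' l hlq) b hb
  have h2 : Gs c n a G (ptr F J ω) (q + 1) = tr c q (G (ptr F J ω) q) := by
    unfold Gs
    exact sy_succ (by omega)
  rw [h2, pd_trL hc (by omega) hlq (hok.depG _ q)]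
  have h3 : eval b (tr c q (pderiv (some (c l)) (G (ptr F J ω) q))) =
      eval (fun o => eval b (vr c q o)) (pderiv (some (c l)) (G (ptr F J ω) q)) := by
    unfold tr
    rw [AdxRow.evl_bnd]
  rw [h3] at h1
  exact h1

/-- **The gradients of a system of degree at most `D` near to a chain.** -/
theorem lip_near (n D : ℕ) : ∃ c : ℕ, ∀ K : ℕ, ∃ C : ℕ, ∀ (d J : ℕ) (F : Fam d J)
    (ch : ℕ → Fin d) (Cd : CDat F) (w₀ z k a w e σ t r : ℕ) (g : ℕ → ℕ) (gf : ℕ → ℕ → ℕ)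
    (A B : F.Ω → Prop) (G : PtT F → ℕ → MvPolynomial (Option (Fin d)) ℝ)
    (H : LnT F → ℕ → MvPolynomial (Option (Fin d)) ℝ), a ≤ w₀ + k * z → w₀ + k * z ≤ J → r ≤ n →
    Inj ch n → ChOK F ch r (fun _ => K) a w e g A G H → (∀ ω, B ω → A ω) →
    (∀ v i, 1 ≤ i → i ≤ r → (Cd.G k v i).totalDegree ≤ D) →
    (∀ v i, 1 ≤ i → i ≤ r → (Cd.G k v i).vars ⊆ range i) →
    (∀ ω, B ω → ∀ i, 1 ≤ i → i ≤ r → ∀ b : ℕ → ℝ, Bx (gg a g) (Gs ch n a G (ptr F J ω)) i b →
      |eval b (Gs ch n a G (ptr F J ω) i) - eval b (Cd.Ph w₀ z k ω i)| ≤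
        2 ^ σ / 2 ^ g (i - 1)) →
    (∀ i, 1 ≤ i → i ≤ r → gf k i ≤ g (i - 1) ∧ g (i - 1) ≤ gf k i + t) →
    NL.LipC F Cd w₀ z k r (e + c * (σ + t + 1) + C) gf B := by
  classical
  obtain ⟨Cc, hCc, hwid⟩ := wid_sys n D
  refine ⟨Cc * Cc + Cc + 1, fun K => ?_⟩
  obtain ⟨s₀, hraw⟩ := raw_grad n K
  obtain ⟨Cg, Kg, hCg, hng⟩ := ngd n (max K D)
  obtain ⟨s₁, hs₁⟩ := pow_unbounded_of_one_lt (1 + Cg) (one_lt_two (α := ℝ))
  refine ⟨s₀ + s₁, ?_⟩
  intro d J F ch Cd w₀ z k a w e σ t r g gf A B G H hak hkJ hr hc hok hB hdeg htri hnear hgf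
    ω hω j hj1 hjr b hb l hl1 hlj
  have haJ : a ≤ J := hak.trans hkJ
  obtain ⟨l, rfl⟩ : ∃ l', l = l' + 1 := ⟨l - 1, by omega⟩
  obtain ⟨q, rfl⟩ : ∃ q, j = q + 1 := ⟨j - 1, by omega⟩
  obtain ⟨Ψ, hΨ⟩ : ∃ Ψ, Ψ = Gs ch n a G (ptr F J ω) := ⟨_, rfl⟩
  obtain ⟨Φ, hΦ⟩ : ∃ Φ : ℕ → PN, Φ = fun i => if i ≤ r then Cd.Ph w₀ z k ω i else 0 := ⟨_, rfl⟩
  have hΨt : TriN Ψ := by
    rw [hΨ]
    exact sy_tri
  have hΨd : ∀ i, (Ψ i).totalDegree ≤ K := by
    rw [hΨ]
    exact sy_deg fun i _ => hok.degG _ i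
  have hΨ0 : Ψ 0 = MvPolynomial.C ((F.T1 a ω : ℝ) / 2 ^ a) := by
    rw [hΨ]
    unfold Gs
    rw [sy_zero, tp_eq]
  have hΦe : ∀ i ≤ r, Φ i = Cd.Ph w₀ z k ω i := fun i hi => by
    rw [hΦ]
    exact if_pos hi
  have hPh : ∀ i, 1 ≤ i → Cd.Ph w₀ z k ω i = Cd.G k (Cd.li k (slam F (w₀ + k * z) ω)) i :=
    fun i hi => if_neg (by omega)
  have hPh0 : Cd.Ph w₀ z k ω 0 =
      MvPolynomial.C ((F.T1 (w₀ + k * z) ω : ℝ) / 2 ^ (w₀ + k * z)) := if_pos rfl
  have hΦt : TriN Φ := by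
    intro i
    rw [hΦ]
    show (if i ≤ r then Cd.Ph w₀ z k ω i else 0 : PN).vars ⊆ range i
    split_ifs with h1
    · rcases Nat.eq_zero_or_pos i with rfl | h2
      · rw [hPh0, vars_C]
        exact Finset.empty_subset _
      · rw [hPh i h2]
        exact htri _ i h2 h1
    · rw [vars_0]
      exact Finset.empty_subset _
  have hΦd : ∀ i, (Φ i).totalDegree ≤ D := by
    intro i
    rw [hΦ]
    show (if i ≤ r then Cd.Ph w₀ z k ω i else 0 : PN).totalDegree ≤ D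
    split_ifs with h1
    · rcases Nat.eq_zero_or_pos i with rfl | h2
      · rw [hPh0, totalDegree_C]
        exact Nat.zero_le _
      · rw [hPh i h2]
        exact hdeg _ i h2 h1
    · rw [totalDegree_zero]
      exact Nat.zero_le _
  have hgg0 : gg a g 0 = a := if_pos rfl
  have hggs : ∀ i, gg a g (i + 1) = g i := fun i => if_neg (by omega)
  have hnr : ∀ i, 1 ≤ i → i ≤ r → ∀ b : ℕ → ℝ, Bx (gg a g) Ψ i b →
      |eval b (Ψ i) - eval b (Φ i)| ≤ 2 ^ σ / 2 ^ g (i - 1) := by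
    intro i h1 h2 b hb
    rw [hΨ] at hb ⊢
    rw [hΦe i h2]
    exact hnear ω hω i h1 h2 b hb
  -- the gradients of the chain
  have hGr : ∀ p, l < p → p < r → ∀ b : ℕ → ℝ, Bx (gg a g) Ψ (p + 1) b →
      |eval b (pderiv (l + 1) (Ψ (p + 1)))| ≤ 2 ^ s₀ * 2 ^ (e + nlp g l p) := by
    intro p h1 h2 b hb
    rw [hΨ] at hb ⊢
    exact hraw d J F ch r a w e g G H A haJ hc hr hok ω (hB ω hω) l p h1 h2 b hb
  have hsup : ∀ p, p ≤ q → (Finset.Icc l p).sup g ≤ (Finset.Icc l q).sup g := fun p hp =>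
    Finset.sup_mono (Finset.Icc_subset_Icc le_rfl hp)
  have hgs : ∀ p, l ≤ p → p ≤ q → g p ≤ (Finset.Icc l q).sup g := fun p h1 h2 =>
    Finset.le_sup (f := g) (Finset.mem_Icc.2 ⟨h1, h2⟩)
  have hs0 : (1 : ℝ) ≤ 2 ^ s₀ := one_le_pow₀ (by norm_num)
  -- the gradient on the natural box of the chain
  have hbox : ∀ b : ℕ → ℝ, Bx (gg a g) Ψ (q + 1) b →
      |eval b (pderiv (l + 1) (Φ (q + 1)))| ≤
        2 ^ s₀ * (1 + Cg * 2 ^ σ) * 2 ^ (e + nlp g l q) := by
    intro b hb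
    obtain ⟨P, hP⟩ : ∃ P, P = Φ (q + 1) - Ψ (q + 1) := ⟨_, rfl⟩
    have h1 := hng (q + 1) (by omega) Ψ (gg a g) P (2 ^ σ / 2 ^ g q)
      (2 ^ s₀ * 2 ^ (e + (Finset.Icc l q).sup g)) 1 (l + 1) b hΨt
      (fun i _ => (hΨd i).trans (le_max_left _ _))
      (by
        rw [hP]
        exact (totalDegree_sub _ _).trans (max_le ((hΦd _).trans (le_max_right _ _))
          ((hΨd _).trans (le_max_left _ _))))
      (by
        rw [hP]
        exact AdxRow.vars_sub_le (hΦt _) (hΨt _))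
      (fun b' hb' => by
        rw [hP, map_sub, abs_sub_comm]
        have := hnr (q + 1) (by omega) (by omega) b' hb'
        rwa [Nat.add_sub_cancel] at this)
      (by positivity) le_rfl hb (by positivity)
      (fun h2 => by
        rw [hggs]
        have h3 : (2 : ℝ) ^ g l ≤ 2 ^ (e + (Finset.Icc l q).sup g) :=
          pow_le_pow_right₀ (by norm_num) (by
            have := hgs l le_rfl (by omega)
            omega)
        have h4 : (0 : ℝ) < 2 ^ (e + (Finset.Icc l q).sup g) := by positivity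
        nlinarith)
      (fun i hi1 hi2 => by
        obtain ⟨i, rfl⟩ : ∃ i', i = i' + 1 := ⟨i - 1, by omega⟩
        rw [hggs]
        have h2 := hGr i (by omega) (by omega) b fun x hx => hb x (by omega)
        have h3 : (0 : ℝ) < 2 ^ g i := by positivity
        refine (mul_le_mul_of_nonneg_left h2 h3.le).trans ?_
        have h4 : (2 : ℝ) ^ g i * (2 ^ s₀ * 2 ^ (e + nlp g l i)) =
            2 ^ s₀ * 2 ^ (g i + (e + nlp g l i)) := by
          rw [pow_add 2 (g i)]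
          ring
        rw [h4]
        refine mul_le_mul_of_nonneg_left (pow_le_pow_right₀ (by norm_num) ?_) (by linarith)
        have h5 : g i ≤ (Finset.Icc l i).sup g :=
          Finset.le_sup (f := g) (Finset.mem_Icc.2 ⟨by omega, le_rfl⟩)
        have h6 := hsup i (by omega)
        unfold nlp
        omega)
    have h2 := hGr q (by omega) (by omega) b hb
    have h3 : eval b (pderiv (l + 1) (Φ (q + 1))) =
        eval b (pderiv (l + 1) (Ψ (q + 1))) + eval b (pderiv (l + 1) P) := by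
      rw [hP, map_sub, map_sub]
      ring
    have h4 : Cg * (2 ^ σ / 2 ^ g q) * 1 ^ Kg * (2 ^ s₀ * 2 ^ (e + (Finset.Icc l q).sup g)) =
        2 ^ s₀ * (Cg * 2 ^ σ) * 2 ^ (e + nlp g l q) := by
      have h5 : (2 : ℝ) ^ (e + (Finset.Icc l q).sup g) = 2 ^ g q * 2 ^ (e + nlp g l q) := by
        rw [← pow_add]
        congr 1
        have h6 := hgs q (by omega) le_rfl
        unfold nlp
        omega
      rw [h5]
      have h7 : (2 : ℝ) ^ g q ≠ 0 := by positivity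
      field_simp
      ring
    rw [h4] at h1
    rw [h3]
    refine (abs_add_le _ _).trans ((add_le_add h2 h1).trans (le_of_eq ?_))
    ring
  -- the dilated natural box
  have hR1 : (1 : ℝ) ≤ 2 ^ (σ + t + 1) := one_le_pow₀ (by norm_num)
  have hfin := hwid Φ Ψ (gg a g) (pderiv (l + 1) (Φ (q + 1))) (q + 1) (2 ^ (σ + t + 1))
    (2 ^ s₀ * (1 + Cg * 2 ^ σ) * 2 ^ (e + nlp g l q)) hΦt hΨt hΦd (by omega)
    ((NEAR.vars_pd _ _).trans (hΦt _)) (NEAR.deg_pd (hΦd _) _) hR1 (by positivity)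
    (fun j hj b hb => by
      rcases Nat.eq_zero_or_pos j with rfl | hj0
      · rw [hΨ0, hΦe 0 (Nat.zero_le _), hPh0, eval_C, eval_C, hgg0]
        have h1 := t_cell F haJ ω
        have h2 := t_cell F hkJ ω
        have h3 : (1 : ℝ) / 2 ^ (w₀ + k * z) ≤ 1 / 2 ^ a :=
          one_div_le_one_div_of_le (by positivity) (pow_le_pow_right₀ (by norm_num) hak)
        have h4 : (2 : ℝ) / 2 ^ a ≤ 2 ^ (σ + t + 1) / 2 ^ a := by
          refine div_le_div_of_nonneg_right ?_ (by positivity)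
          exact le_self_pow₀ (by norm_num) (by omega)
        have h5 : (2 : ℝ) / 2 ^ a = 1 / 2 ^ a + 1 / 2 ^ a := by ring
        rw [abs_le] at h1 h2 ⊢
        constructor <;> linarith [h1.1, h1.2, h2.1, h2.2]
      · obtain ⟨j, rfl⟩ : ∃ j', j = j' + 1 := ⟨j - 1, by omega⟩
        rw [hggs]
        have h1 := hnr (j + 1) (by omega) (by omega) b hb
        rw [Nat.add_sub_cancel] at h1
        refine h1.trans (div_le_div_of_nonneg_right ?_ (by positivity))
        exact pow_le_pow_right₀ (by norm_num) (by omega))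
    hbox b (fun i hi => by
      have h1 := hb i hi
      rw [hΦe i (by omega)]
      refine h1.trans ?_
      rcases Nat.eq_zero_or_pos i with rfl | hi0
      · have h2 : CDat.g0 w₀ z gf k 0 = w₀ + k * z := if_pos rfl
        rw [h2, hgg0, div_le_div_iff₀ (by positivity) (by positivity)]
        refine mul_le_mul (le_self_pow₀ (by norm_num) (by omega))
          (pow_le_pow_right₀ (by norm_num) hak) (by positivity) (by positivity)
      · obtain ⟨i, rfl⟩ : ∃ i', i = i' + 1 := ⟨i - 1, by omega⟩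
        have h2 : CDat.g0 w₀ z gf k (i + 1) = gf k (i + 1) := if_neg (by omega)
        have h3 := hgf (i + 1) (by omega) (by omega)
        rw [Nat.add_sub_cancel] at h3
        rw [h2, hggs, div_le_div_iff₀ (by positivity) (by positivity), ← pow_succ', ← pow_add]
        exact pow_le_pow_right₀ (by norm_num) (by omega))
  rw [hΦe (q + 1) (by omega)] at hfin
  refine hfin.trans ?_
  have c1 : (Cc : ℝ) ≤ 2 ^ Cc := by exact_mod_cast (Nat.lt_two_pow_self).le
  have c2 : ((Cc : ℝ) * 2 ^ (σ + t + 1)) ^ Cc ≤ 2 ^ ((Cc + (σ + t + 1)) * Cc) := by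
    have h1 : (Cc : ℝ) * 2 ^ (σ + t + 1) ≤ 2 ^ (Cc + (σ + t + 1)) := by
      rw [pow_add (2 : ℝ) Cc (σ + t + 1)]
      exact mul_le_mul_of_nonneg_right c1 (by positivity)
    rw [pow_mul]
    exact pow_le_pow_left₀ (by positivity) h1 _
  have c3 : 1 + Cg * 2 ^ σ ≤ 2 ^ (s₁ + σ) := by
    have h1 : (1 : ℝ) ≤ 2 ^ σ := one_le_pow₀ (by norm_num)
    rw [pow_add]
    nlinarith
  have c4 : nlp g l q ≤ nlp (gf k) (l + 1) (q + 1) + t := nlp_up hgf (by omega) hjr
  calc ((Cc : ℝ) * 2 ^ (σ + t + 1)) ^ Cc * (2 ^ s₀ * (1 + Cg * 2 ^ σ) * 2 ^ (e + nlp g l q)) ≤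
        2 ^ ((Cc + (σ + t + 1)) * Cc) * (2 ^ s₀ * 2 ^ (s₁ + σ) * 2 ^ (e + nlp g l q)) := by
        refine mul_le_mul c2 ?_ (by positivity) (by positivity)
        refine mul_le_mul_of_nonneg_right ?_ (by positivity)
        exact mul_le_mul_of_nonneg_left c3 (by positivity)
    _ = 2 ^ ((Cc + (σ + t + 1)) * Cc + (s₀ + (s₁ + σ) + (e + nlp g l q))) := by
        rw [pow_add (2 : ℝ) ((Cc + (σ + t + 1)) * Cc), pow_add (2 : ℝ) (s₀ + (s₁ + σ)),
          pow_add (2 : ℝ) s₀]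
    _ ≤ 2 ^ (e + (Cc * Cc + Cc + 1) * (σ + t + 1) + (s₀ + s₁) +
          nlp (gf k) (l + 1) (q + 1)) := by
        refine pow_le_pow_right₀ (by norm_num) ?_
        have h1 : (Cc + (σ + t + 1)) * Cc = Cc * Cc + Cc * (σ + t + 1) := by ring
        have h2 : Cc * Cc ≤ Cc * Cc * (σ + t + 1) := Nat.le_mul_of_pos_right _ (by omega)
        have h3 : (Cc * Cc + Cc + 1) * (σ + t + 1) =
            Cc * Cc * (σ + t + 1) + Cc * (σ + t + 1) + (σ + t + 1) := by ring
        rw [h1, h3]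
        omega

end CLO

end Pool.STAT
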