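import Pool.Agent.H69.STAT.LipE
import Pool.Agent.H82.STAT.Grj

/-!
# The gradients of closed labels of a path

`lip_pth`: the closed labels of a path of raw levels (`GRD.Path.Er`) have natural gradients.
-/

set_option autoImplicit false

namespace Pool.STAT

open Finset MvPolynomial
open Pool.Agent.H49.Ent Pool.Agent.H32.Dense Pool.STK Pool.KS3 Pool.KA Pool.KSAT Pool.PB Pool.GEN
open Pool.K2S Pool.TRC

namespace CLO

theorem jG_tri {d J : ℕ} (F : Fam d J) (c : ℕ → Fin d) (n N a₀ : ℕ) (al : ℕ → ℕ)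
    (G : ℕ → PtT F → ℕ → MvPolynomial (Option (Fin d)) ℝ) (k : ℕ) (y : PtT F) :
    TriN (jG F c n N a₀ al G k y) := by
  rcases k with _ | k
  · intro i
    show (if i = 0 then MvPolynomial.C (tp a₀ y) else
      MvPolynomial.C ((y.1 (c (i - 1)) : ℝ) / 2 ^ J) : PN).vars ⊆ range i
    split_ifs <;> rw [vars_C] <;> exact Finset.empty_subset _
  · intro i
    by_cases hk : k < N
    · rw [jG_succ hk]
      exact sy_tri i
    · have h1 : jG F c n N a₀ al G (k + 1) = fun y i => if i = 0 then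
          MvPolynomial.C (tp (al k) y) else 0 := if_neg hk
      rw [h1]
      simp only
      split_ifs
      · rw [vars_C]
        exact Finset.empty_subset _
      · rw [vars_0]
        exact Finset.empty_subset _

/-- **The gradients of the closed labels** of a path of raw levels. -/
theorem lip_pth (n D : ℕ) : ∃ c : ℕ, ∀ K : ℕ, ∃ C : ℕ, ∀ {d J : ℕ} {F : Fam d J}
    (ch : ℕ → Fin d) (Cd : CDat F) (w₀ z k j r N a₀ : ℕ) (al : ℕ → ℕ) (w e u σ t t' : ℕ)
    (g γ : ℕ → ℕ) (gf gp : ℕ → ℕ → ℕ) (A B : F.Ω → Prop)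
    (G : ℕ → PtT F → ℕ → MvPolynomial (Option (Fin d)) ℝ)
    (H : LnT F → ℕ → MvPolynomial (Option (Fin d)) ℝ),
    Inj ch n → j < N → g = gp j →
    GRD.Fnr (GRD.pth F ch n N a₀ al gp G) (GRD.pth F ch n N a₀ al gp G) n u (j + 1) (j + 1) A →
    al j ≤ w₀ + k * z → w₀ + k * z ≤ J → r ≤ n →
    ChOK F ch r (fun _ => K) (al j) w e g A (G j) H → (∀ ω, B ω → A ω) →
    (∀ v i, 1 ≤ i → i ≤ r → (Cd.G k v i).totalDegree ≤ D) →
    (∀ v i, 1 ≤ i → i ≤ r → (Cd.G k v i).vars ⊆ range i) →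
    (∀ ω, B ω → (GRD.pth F ch n N a₀ al gp G).Er r (j + 1) u σ γ ω (Cd.Ph w₀ z k ω)) →
    (∀ i, 1 ≤ i → i ≤ r → g (i - 1) ≤ γ i + t') →
    (∀ i, 1 ≤ i → i ≤ r → gf k i ≤ g (i - 1) ∧ g (i - 1) ≤ gf k i + t) →
    NL.LipC F Cd w₀ z k r (e + c * (σ + t' + t + 1) + C) gf B := by
  classical
  obtain ⟨c, hlip⟩ := lip_near n D
  refine ⟨c, fun K => ?_⟩
  obtain ⟨C, hlip⟩ := hlip K
  refine ⟨C, ?_⟩
  intro d J F ch Cd w₀ z k j r N a₀ al w e u σ t t' g γ gf gp A B G H hc hj hg hfnr hjk hkJ hr hok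
    hB hdeg htri her hγ hgf
  subst hg
  obtain ⟨π, hπ⟩ : ∃ π, π = GRD.pth F ch n N a₀ al gp G := ⟨_, rfl⟩
  rw [← hπ] at hfnr her
  have hπa : π.a (j + 1) = al j := by
    rw [hπ]
    rfl
  have hπg : ∀ i, π.g (j + 1) i = gp j (i - 1) := fun i => by
    rw [hπ]
    rfl
  have hπG : π.G (j + 1) = Gs ch n (al j) (G j) := by
    rw [hπ]
    exact jG_succ (a₀ := a₀) hj
  have hmain := hlip d J F ch Cd w₀ z k (al j) w e (σ + t') t r (gp j) gf A B (G j) H hjk hkJ hr hc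
    hok hB hdeg htri (fun ω hω i h1 hi b hb => ?_) hgf
  · exact hmain
  have hPh : ∀ l, 1 ≤ l → l ≤ r → (Cd.Ph w₀ z k ω l).vars ⊆ range l := fun l h1 h2 => by
    unfold CDat.Ph
    rw [if_neg (by omega)]
    exact htri _ l h1 h2
  obtain ⟨Ψ, hΨ⟩ : ∃ Ψ : ℕ → PN, Ψ = Gs ch n (al j) (G j) (ptr F J ω) := ⟨_, rfl⟩
  have hΨj : π.G (j + 1) (ptr F J ω) = Ψ := by
    rw [hΨ, hπG]
  have hΨt : TriN Ψ := by
    rw [hΨ]
    exact sy_tri
  rw [← hΨ] at hb ⊢
  obtain ⟨b', hb'⟩ : ∃ b' : ℕ → ℝ, b' = Function.update b i (eval b (Ψ i)) := ⟨_, rfl⟩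
  have hbl : ∀ l < i, b' l = b l := fun l hl => by
    rw [hb', Function.update_of_ne (by omega)]
  have hbi : b' i = eval b (Ψ i) := by rw [hb', Function.update_self]
  have hev : ∀ {Q : PN} {l : ℕ}, Q.vars ⊆ range l → l ≤ i → eval b' Q = eval b Q :=
    fun {Q l} hQ hl => Pool.SYS35.eval_congr hQ fun x hx => hbl x (by omega)
  have hb2 : Bx (tus (al j) (fun i => gp j (i - 1))) Ψ i b := by
    rw [← gg_tus]
    exact hb
  have hb0 : |b 0 - (F.T1 (al j) ω : ℝ) / 2 ^ al j| ≤ 1 / 2 ^ al j := by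
    have h0 := hb2 0 h1
    have h2 : Ψ 0 = MvPolynomial.C (tp (al j) (ptr F J ω)) := by
      rw [hΨ]
      exact sy_zero
    rw [h2, eval_C, tp_eq] at h0
    exact h0
  have hfin := her ω hω i h1 hi b' (by
      rw [hbl 0 h1, hπa]
      exact hb0) (fun k' hk' l hl1 hl => by
      have e1 : |b l - b l| ≤ 0 := by rw [sub_self, abs_zero]
      have e2 : |b' l - eval b (Ψ l)| ≤ 1 / 2 ^ gp j (l - 1) := by
        rcases Nat.lt_or_ge l i with h2 | h2
        · rw [hbl l h2]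
          have := hb2 l h2
          rwa [tus_pos _ _ hl1] at this
        · have : l = i := by omega
          subst this
          rw [hbi, sub_self, abs_zero]
          positivity
      have e3 := hfnr.uni ω (hB ω hω) k' hk' l hl1 (by omega) b (by
        rw [hΨj, hπa]
        have : tus (al j) (π.g (j + 1)) = tus (al j) (fun i => gp j (i - 1)) := by
          congr 1
          funext x
          exact hπg x
        rw [this]
        exact fun x hx => hb2 x (by omega))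
      rw [hΨj] at e3
      have e4 := hfnr.g_le k' hk' l hl1 (by omega)
      rw [hπg] at e4
      have hGt : (π.G k' (ptr F J ω) l).vars ⊆ range l := by
        rw [hπ]
        exact jG_tri F ch n N a₀ al G k' _ l
      show |b' l - eval b' (π.G k' (ptr F J ω) l)| ≤ 2 ^ (u + 1) / 2 ^ π.g k' l
      rw [hev hGt hl]
      have e5 : (1 : ℝ) / 2 ^ gp j (l - 1) ≤ 1 / 2 ^ π.g k' l :=
        one_div_le_one_div_of_le (by positivity) (pow_le_pow_right₀ (by norm_num) e4)
      have e6 : (1 : ℝ) / 2 ^ π.g k' l ≤ 2 ^ u / 2 ^ π.g k' l :=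
        div_le_div_of_nonneg_right (one_le_pow₀ (by norm_num)) (by positivity)
      have e7 : (2 : ℝ) ^ (u + 1) / 2 ^ π.g k' l = 2 ^ u / 2 ^ π.g k' l +
          2 ^ u / 2 ^ π.g k' l := by
        rw [pow_succ]
        ring
      rw [e7]
      rw [abs_le] at e2 e3 ⊢
      constructor <;> linarith [e2.1, e2.2, e3.1, e3.2])
  rw [hbi, hev (hPh i h1 hi) le_rfl] at hfin
  refine hfin.trans ?_
  rw [div_le_div_iff₀ (by positivity) (by positivity), ← pow_add, ← pow_add]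
  have := hγ i h1 hi
  exact pow_le_pow_right₀ (by norm_num) (by omega)

end CLO

end Pool.STAT
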